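import Pool.Agent.H69.Hep.G2
import Pool.Agent.H69.Hep.F9
import Pool.Agent.H69.Hep.F11

/-! # The packing density of the regular heptagon -/

set_option autoImplicit false

namespace Pool.Agent.Results.MP_b10510_co.Heptagon

open MeasureTheory Filter Topology

/-- The Euclidean plane. -/
abbrev Plane : Type := EuclideanSpace ℝ (Fin 2)

/-- `K` is a convex body. -/
def IsBody (K : Set Plane) : Prop := IsCompact K ∧ Convex ℝ K ∧ (interior K).Nonempty

/-- `F` is a packing by congruent copies of `K`. -/
def IsPacking (K : Set Plane) (F : Set (Set Plane)) : Prop :=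
  (∀ X ∈ F, ∃ f : Plane ≃ᵢ Plane, X = f '' K) ∧
    F.Pairwise fun X Y => Disjoint (interior X) (interior Y)

/-- The density of the family `F` exists and is equal to `d`. -/
def HasDensity (F : Set (Set Plane)) (d : ℝ) : Prop :=
  Tendsto (fun r : ℝ => (∑' X : F, volume ((X : Set Plane) ∩ Metric.closedBall 0 r)).toReal /
    (Real.pi * r ^ 2)) atTop (𝓝 d)

/-- The packing density of `K`. -/
noncomputable def delta (K : Set Plane) : ℝ :=
  sSup {d : ℝ | ∃ F : Set (Set Plane), IsPacking K F ∧ HasDensity F d}

/-- The least packing density of a convex body. -/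
noncomputable def deltaMin : ℝ := sInf {x : ℝ | ∃ K : Set Plane, IsBody K ∧ x = delta K}

/-- The regular heptagon with inradius `1`: the intersection of the seven half planes
`⟨z, u⟩ ≤ 1`, where `u` is the unit vector of direction `2 π m / 7`. -/
def heptagon : Set Plane :=
  {z | ∀ m : ℤ, z 0 * Real.cos (2 * Real.pi * m / 7) + z 1 * Real.sin (2 * Real.pi * m / 7) ≤ 1}

/-- The density of the double lattice packing. -/
private noncomputable def dst : ℝ := 7 * Real.tan (Hepta.ww / 2) / (2 * Hepta.Ms)

private theorem dst_pos : 0 < dst := by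
  have h := Hepta.density_bd.1
  norm_num at h
  unfold dst
  linarith

private theorem heptagon_eq : heptagon = Hepta.hept := by
  unfold heptagon Hepta.hept
  have h : ∀ m : ℤ, 2 * Real.pi * m / 7 = m * Hepta.ww := by
    intro m
    unfold Hepta.ww
    ring
  simp only [h]

private theorem density_nonneg {F : Set (Set Plane)} {d : ℝ} (h : HasDensity F d) : 0 ≤ d := by
  refine ge_of_tendsto h ?_
  filter_upwards with r
  positivity

/-- The upper bound for the area. -/
private theorem area_le {F : Set (Set Plane)} (hF : IsPacking heptagon F) {r : ℝ} (hr : 0 < r) :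
    ∑' X : F, volume ((X : Set Plane) ∩ Metric.closedBall 0 r) ≤
      ENNReal.ofReal (Real.pi * (r + 6 / 5 + Real.sqrt 2) ^ 2 * dst) :=
  Hepta.packing_area_le F (fun X hX => by
    obtain ⟨f, hf⟩ := hF.1 X hX
    exact ⟨f, f.isometry, by rw [hf, heptagon_eq]⟩) hF.2 hr

private theorem tendsto_up :
    Tendsto (fun r : ℝ => (1 + (6 / 5 + Real.sqrt 2) * r⁻¹) ^ 2 * dst) atTop (𝓝 dst) := by
  have h1 : Tendsto (fun r : ℝ => (1 + (6 / 5 + Real.sqrt 2) * r⁻¹) ^ 2 * dst)
      atTop (𝓝 ((1 + (6 / 5 + Real.sqrt 2) * 0) ^ 2 * dst)) :=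
    (((tendsto_inv_atTop_zero.const_mul (6 / 5 + Real.sqrt 2)).const_add 1).pow 2).mul_const _
  rw [mul_zero, add_zero, one_pow, one_mul] at h1
  exact h1

private theorem quot_le {F : Set (Set Plane)} (hF : IsPacking heptagon F) {r : ℝ} (hr : 0 < r) :
    (∑' X : F, volume ((X : Set Plane) ∩ Metric.closedBall 0 r)).toReal / (Real.pi * r ^ 2) ≤
      (1 + (6 / 5 + Real.sqrt 2) * r⁻¹) ^ 2 * dst := by
  have hd := dst_pos
  rw [div_le_iff₀ (by positivity)]
  refine (ENNReal.toReal_le_of_le_ofReal (by positivity) (area_le hF hr)).trans (le_of_eq ?_)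
  have hr' : r ≠ 0 := hr.ne'
  field_simp
  ring

private theorem density_le {F : Set (Set Plane)} {d : ℝ} (hF : IsPacking heptagon F)
    (h : HasDensity F d) : d ≤ dst := by
  refine le_of_tendsto_of_tendsto h tendsto_up ?_
  filter_upwards [eventually_gt_atTop 0] with r hr
  exact quot_le hF hr

/-- The double lattice packing. -/
private noncomputable def dl : Set (Set Plane) := Set.range Hepta.tile

private theorem dl_packing : IsPacking heptagon dl := by
  constructor
  · rintro _ ⟨q, rfl⟩
    rw [heptagon_eq]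
    exact Hepta.tile_iso q
  · rintro _ ⟨q, rfl⟩ _ ⟨q', rfl⟩ hne
    exact Hepta.tile_disjoint fun h => hne (by rw [h])

private theorem dl_sum (r : ℝ) :
    ∑' X : dl, volume ((X : Set Plane) ∩ Metric.closedBall 0 r) =
      ∑' q : Bool × ℤ × ℤ, volume (Hepta.tile q ∩ Metric.closedBall 0 r) := by
  let E : (Bool × ℤ × ℤ) ≃ dl := Equiv.ofInjective Hepta.tile Hepta.tile_injective
  rw [← E.tsum_eq]
  rfl

private theorem dl_density : HasDensity dl dst := by
  have h1 : Tendsto (fun r : ℝ => (1 - 10 * r⁻¹) ^ 2 * dst) atTop (𝓝 dst) := by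
    have h1 : Tendsto (fun r : ℝ => (1 - 10 * r⁻¹) ^ 2 * dst)
        atTop (𝓝 ((1 - 10 * 0) ^ 2 * dst)) :=
      (((tendsto_inv_atTop_zero.const_mul 10).const_sub 1).pow 2).mul_const _
    rw [mul_zero, sub_zero, one_pow, one_mul] at h1
    exact h1
  refine tendsto_of_tendsto_of_tendsto_of_le_of_le' h1 tendsto_up ?_ ?_
  · filter_upwards [eventually_ge_atTop 10] with r hr
    have hr0 : 0 < r := by linarith
    have hd := dst_pos
    rw [le_div_iff₀ (by positivity)]
    have h2 := Hepta.tile_lower hr
    rw [← dl_sum] at h2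
    have hfin : ∑' X : dl, volume ((X : Set Plane) ∩ Metric.closedBall 0 r) ≠ ⊤ :=
      ((area_le dl_packing hr0).trans_lt ENNReal.ofReal_lt_top).ne
    have h3 := (ENNReal.ofReal_le_iff_le_toReal hfin).1 h2
    refine le_trans (le_of_eq ?_) h3
    have hr' : r ≠ 0 := hr0.ne'
    unfold dst
    field_simp
  · filter_upwards [eventually_gt_atTop 0] with r hr
    exact quot_le dl_packing hr

/-- The packing density of the regular heptagon is the density of its best double lattice packing;
in particular the least packing density of a convex body is at most this number,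
`0.8926906861…`. -/
theorem result : deltaMin ≤ delta heptagon ∧
    delta heptagon = 28 * Real.sin (2 * Real.pi / 7) ^ 2 /
      ((1 + Real.cos (Real.pi / 7)) *
        (4 * Real.cos (Real.pi / 7) + 12 * Real.cos (2 * Real.pi / 7) - 1)) ∧
    delta heptagon < 0.89269069 := by
  have hval : delta heptagon = dst := by
    refine le_antisymm (Real.sSup_le ?_ dst_pos.le) (le_csSup ⟨dst, ?_⟩ ⟨dl, dl_packing, dl_density⟩)
    · rintro d ⟨F, hF, hd⟩
      exact density_le hF hd
    · rintro d ⟨F, hF, hd⟩
      exact density_le hF hd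
  refine ⟨?_, ?_, ?_⟩
  · refine csInf_le ⟨0, ?_⟩ ⟨heptagon, ?_, rfl⟩
    · rintro x ⟨K, -, rfl⟩
      refine Real.sSup_nonneg ?_
      rintro d ⟨F, -, hd⟩
      exact density_nonneg hd
    · rw [heptagon_eq]
      exact ⟨Hepta.hept_compact, Hepta.hept_convex, Hepta.hept_interior⟩
  · rw [hval]
    exact Hepta.density_form
  · rw [hval]
    exact Hepta.density_bd.2

end Pool.Agent.Results.MP_b10510_co.Heptagon
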