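import Pool.Agent.H94.DL.SymR
import Pool.Agent.H61.Rz.Fin
import Pool.Agent.H81.Lv.Zh

/-!
# Packing densities of nearly centrally symmetric planar convex bodies

The constant `(8 - √32 - log 2) / (√8 - 1) = 0.90241...` is the density of the best lattice packing
of Reinhardt's smoothed octagon.
-/

set_option autoImplicit false

namespace Pool.Agent.Results.MP_b10510_co.NearlySymmetric

open Pool.H94.DL MeasureTheory

/-- Let `K` be a convex body of the Euclidean plane, `D = (K - K) / 2` (that is `hd K`),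
`x = |K| / |D|` and let `C = (8 - √32 - log 2) / (√8 - 1) = 0.90241...` be Reinhardt's constant; by
the inequalities of Brunn-Minkowski and Rogers-Shephard `2 / 3 ≤ x ≤ 1`, with `x = 1` for the
centrally symmetric `K` only.  Then for every `c < C` the body `K` has a packing by translates,
whose density exists and is at least `c x`; hence `δ(K) ≥ C x`.  In particular
`δ(K) > √3 / 2` whenever `x > 0.9597`. -/
theorem result (K : Set (EuclideanSpace ℝ (Fin 2))) (hc : Convex ℝ K) (hk : IsCompact K)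
    (hi : (interior K).Nonempty) :
    (∀ c : ℝ, c < (8 - Real.sqrt 32 - Real.log 2) / (Real.sqrt 8 - 1) →
      ∃ (e : ℤ × ℤ → EuclideanSpace ℝ (Fin 2) ≃ᵢ EuclideanSpace ℝ (Fin 2)) (d : ℝ),
        (∀ i, ∃ t, ∀ z, e i z = z + t) ∧ IsPacking K e ∧ HasDensity K e d ∧
        c * ((volume K).toReal / (volume (hd K)).toReal) ≤ d) ∧
    (8 - Real.sqrt 32 - Real.log 2) / (Real.sqrt 8 - 1) *
      ((volume K).toReal / (volume (hd K)).toReal) ≤ packingDensity K ∧
    (9597 / 10000 < (volume K).toReal / (volume (hd K)).toReal →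
      Real.sqrt 3 / 2 < packingDensity K) := by
  have H : Pool.H61.Rh.RSBound ((8 - Real.sqrt 32 - Real.log 2) / (Real.sqrt 8 - 1)) :=
    Pool.H61.Rh.rs_of_zones Pool.H61.Rh.hqA
      (Pool.H61.Rh.zhA Pool.H61.Rh.ytOk) (Pool.H61.Rh.zhB Pool.H61.Rh.ytOk)
  have h9 : (8 - Real.sqrt 32 - Real.log 2) / (Real.sqrt 8 - 1) ≤ 9025 / 10000 :=
    Pool.H61.Sm.cR_le
  have hpos : 0 < (8 - Real.sqrt 32 - Real.log 2) / (Real.sqrt 8 - 1) := Pool.H61.Sm.cR_pos
  have h4 := le_density_gen h9 hpos H hc hk hi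
  refine ⟨fun c hcc => ?_, h4, ?_⟩
  · obtain ⟨e, d, h0, h1, h2, h3⟩ := exists_lattice3_gen h9 H (le_max_left 0 c)
      (max_lt hpos hcc) hc hk hi
    refine ⟨e, d, h0, h1, h2, le_trans ?_ h3⟩
    exact mul_le_mul_of_nonneg_right (le_max_right 0 c)
      (div_nonneg ENNReal.toReal_nonneg ENNReal.toReal_nonneg)
  · intro hx
    have h5 : Real.sqrt 3 < 1.73206 := by
      rw [Real.sqrt_lt' (by norm_num)]; norm_num
    have h6 : (9024 : ℝ) / 10000 < (8 - Real.sqrt 32 - Real.log 2) / (Real.sqrt 8 - 1) := by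
      have a1 : Real.sqrt 32 < 5.656855 := by
        rw [Real.sqrt_lt' (by norm_num)]; norm_num
      have a2 : Real.sqrt 8 < 2.828428 := by
        rw [Real.sqrt_lt' (by norm_num)]; norm_num
      have a3 : 2.828427 < Real.sqrt 8 := by
        rw [Real.lt_sqrt (by norm_num)]; norm_num
      have a4 := Real.log_two_lt_d9
      rw [lt_div_iff₀ (by linarith)]
      linarith
    refine lt_of_lt_of_le ?_ h4
    have h7 : (9024 : ℝ) / 10000 * (9597 / 10000) <
        (8 - Real.sqrt 32 - Real.log 2) / (Real.sqrt 8 - 1) *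
          ((volume K).toReal / (volume (hd K)).toReal) :=
      mul_lt_mul'' h6 hx (by norm_num) (by norm_num)
    norm_num at h5 h7 ⊢
    linarith

end Pool.Agent.Results.MP_b10510_co.NearlySymmetric
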