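import Pool.Agent.H81.Oct.O11
import Pool.Agent.H94.DL.SymR
import Pool.Agent.H61.Rz.Fin
import Pool.Agent.H81.Lv.Zh

/-!
# The least packing density of the centrally symmetric planar convex bodies

The least packing density of a centrally symmetric convex body of the Euclidean plane is
`(8 - √32 - log 2) / (√8 - 1) = 0.902414…`, and Reinhardt's smoothed octagon is a body with this
packing density.
-/

set_option autoImplicit false

namespace Pool.Agent.Results.MP_b10510_co.SymmetricMin

open MeasureTheory Filter Topology Metric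

/-- The Euclidean plane. -/
abbrev Plane : Type := EuclideanSpace ℝ (Fin 2)

/-- `K` is a convex body. -/
def IsBody (K : Set Plane) : Prop := IsCompact K ∧ Convex ℝ K ∧ (interior K).Nonempty

/-- `K` is centrally symmetric, with some centre `c`. -/
def IsSymmetric (K : Set Plane) : Prop := ∃ c : Plane, ∀ z ∈ K, c + c - z ∈ K

/-- The images `e i '' K` of `K` under the isometries `e i` have pairwise disjoint interiors. -/
def IsPacking {ι : Type} (K : Set Plane) (e : ι → Plane ≃ᵢ Plane) : Prop :=
  Pairwise fun i j => Disjoint (interior (e i '' K)) (interior (e j '' K))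

/-- The family of the images `e i '' K` has the density `d`: the sum of the areas of the sets
`e i '' K ∩ B_r`, divided by `π r ^ 2`, has the limit `d` as `r → ∞`. -/
def HasDensity {ι : Type} (K : Set Plane) (e : ι → Plane ≃ᵢ Plane) (d : ℝ) : Prop :=
  Tendsto (fun r : ℝ => (∑' i, volume (e i '' K ∩ closedBall 0 r)).toReal / (Real.pi * r ^ 2))
    atTop (𝓝 d)

/-- The packing density of `K`: the supremum of the densities of all packings by congruent copies
of `K` whose density exists. -/
noncomputable def delta (K : Set Plane) : ℝ :=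
  sSup {d | ∃ (ι : Type) (e : ι → Plane ≃ᵢ Plane), IsPacking K e ∧ HasDensity K e d}

/-- Reinhardt's constant, `0.902414…`. -/
noncomputable def C : ℝ := (8 - Real.sqrt 32 - Real.log 2) / (Real.sqrt 8 - 1)

/-- The rotation by `45` degrees. -/
noncomputable def turn (z : ℝ × ℝ) : ℝ × ℝ :=
  (Real.sqrt 2 / 2 * (z.1 - z.2), Real.sqrt 2 / 2 * (z.1 + z.2))

/-- Reinhardt's smoothed octagon with inradius `1`.  Let `u = 1 - (√2 / 2) (x - y)` and
`v = 1 - y`; the lines `u = 0` and `v = 0` are sides of the regular octagon with inradius `1`,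
between them there are the sides `x = 1` and `(√2 / 2) (x + y) = 1`.  The hyperbola `u v = √2 / 4`
touches these two sides at `u = 1 / 2` and at `u = √2 / 2`, and `u / t + 2 √2 t v = 2` is its tangent
at `u = t`.  The smoothed octagon is the intersection of the half planes of these tangents with
`1 / 2 ≤ t ≤ √2 / 2` and of their images under the rotations by the multiples of `45` degrees: the
regular octagon whose corners are cut by arcs of hyperbolas. -/
def smoothedOctagon : Set Plane :=
  {z | ∀ (k : ℕ) (t : ℝ), 1 / 2 ≤ t → t ≤ Real.sqrt 2 / 2 →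
    2 ≤ (1 - Real.sqrt 2 / 2 * ((turn^[k] (z 0, z 1)).1 - (turn^[k] (z 0, z 1)).2)) / t +
      2 * Real.sqrt 2 * t * (1 - (turn^[k] (z 0, z 1)).2)}

/-- The smallest packing density of a centrally symmetric convex body of the Euclidean plane is
`C = (8 - √32 - log 2) / (√8 - 1) = 0.902414…`; it is the packing density of the smoothed octagon.
The packings are by congruent copies, arbitrarily turned, reflections allowed. -/
theorem result :
    IsLeast {x : ℝ | ∃ K : Set Plane, IsBody K ∧ IsSymmetric K ∧ x = delta K} C ∧
    IsBody smoothedOctagon ∧ IsSymmetric smoothedOctagon ∧ delta smoothedOctagon = C := by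
  have hoct : smoothedOctagon = Octa.octP := rfl
  have H : Pool.H61.Rh.RSBound C :=
    Pool.H61.Rh.rs_of_zones Pool.H61.Rh.hqA
      (Pool.H61.Rh.zhA Pool.H61.Rh.ytOk) (Pool.H61.Rh.zhB Pool.H61.Rh.ytOk)
  have h9 : C ≤ 9025 / 10000 := Pool.H61.Sm.cR_le
  have hpos : 0 < C := Pool.H61.Sm.cR_pos
  have hdelta : ∀ K : Set Plane, delta K = Pool.H94.DL.packingDensity K := fun _ => rfl
  have hlow : ∀ K : Set Plane, IsBody K → IsSymmetric K → C ≤ delta K := by
    rintro K ⟨hk, hc, hi⟩ ⟨c, hs⟩
    have h4 := Pool.H94.DL.le_density_gen h9 hpos H hc hk hi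
    rw [Pool.H94.DL.volume_hd_sym hc hk hi hs, mul_one] at h4
    exact h4
  have hb : IsBody smoothedOctagon := by
    rw [hoct]
    exact ⟨Octa.octP_compact, Octa.octP_convex, Octa.octP_interior⟩
  have hs : IsSymmetric smoothedOctagon := by
    rw [hoct]
    refine ⟨0, fun z hz => ?_⟩
    rw [add_zero, zero_sub]
    exact Octa.octP_neg hz
  have hup : delta smoothedOctagon ≤ C := by
    rw [hoct]
    exact Octa.oct_packingDensity_le
  have heq : delta smoothedOctagon = C := le_antisymm hup (hlow _ hb hs)
  refine ⟨⟨⟨smoothedOctagon, hb, hs, heq.symm⟩, ?_⟩, hb, hs, heq⟩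
  rintro x ⟨K, h1, h2, rfl⟩
  exact hlow K h1 h2

end Pool.Agent.Results.MP_b10510_co.SymmetricMin
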